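import Pool.Agent.GJ.X.Exx
import Pool.Agent.GK.Bas
import Pool.Agent.TF2.K.Cl
import Pool.Agent.GK.C.Defs

/-!
# GK/X-Exy: totally complex fields with local degrees divisible by `2 ^ i`

`tc_iff`: the field of `H` is totally complex iff `H` contains no complex conjugation.  `ClW` is the relative theorem for
the class of the fields with local degrees divisible by `2 ^ i`.
-/

namespace Pool.Agent.GK

open NumberField IsDedekindDomain MulAction Pool.Agent.HWR Pool.Agent.QD Pool.Agent.H73.AL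
  Pool.Agent.H73.DU Pool.Agent.MD Pool.Agent.LD Pool.Agent.TS Pool.Agent.GJ

theorem thinD_ext {i : ℕ} {V T : Finset ℕ} {K L : Type} [Field K] [NumberField K] [Field L]
    [NumberField L] [Algebra K L] (h : ThinD i V T K) : ThinD i V T L :=
  ⟨⟨fun ψ => h.1.false (ψ.comp (algebraMap K L))⟩, dvV_ext (K := K) h.2⟩

private theorem ey_alg (inst : Algebra ℚ (AlgebraicClosure ℚ)) :
    IsAlgClosure ℚ (AlgebraicClosure ℚ) := by
  have h : inst = AlgebraicClosure.instAlgebra ℚ := Subsingleton.elim _ _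
  subst h
  infer_instance

private theorem ey_i : ∃ _ : AlgebraicClosure ℚ →+* ℂ, True := by
  have h1 : IsAlgClosure ℚ (AlgebraicClosure ℚ) := ey_alg inferInstance
  have h2 : Algebra.IsAlgebraic ℚ (AlgebraicClosure ℚ) := h1.isAlgebraic
  let i : AlgebraicClosure ℚ →ₐ[ℚ] ℂ := IsAlgClosed.lift
  exact ⟨i.toRingHom, trivial⟩

private theorem ey_conj (ι : AlgebraicClosure ℚ →+* ℂ) :
    ∃ c : GQ, ∀ x, ι (c x) = starRingEnd ℂ (ι x) := by
  have h1 : IsAlgClosure ℚ (AlgebraicClosure ℚ) := ey_alg inferInstance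
  have h2 : Algebra.IsAlgebraic ℚ (AlgebraicClosure ℚ) := h1.isAlgebraic
  have h3 : Normal ℚ (AlgebraicClosure ℚ) := IsAlgClosure.normal ℚ _
  let _ : Algebra (AlgebraicClosure ℚ) ℂ := ι.toAlgebra
  have : IsScalarTower ℚ (AlgebraicClosure ℚ) ℂ :=
    IsScalarTower.of_algebraMap_eq' (Subsingleton.elim _ _)
  let χ : ℂ ≃ₐ[ℚ] ℂ := AlgEquiv.ofRingEquiv (f := starRingAut) (fun r => by simp)
  refine ⟨χ.restrictNormal (AlgebraicClosure ℚ), ?_⟩
  intro x
  exact AlgEquiv.restrictNormal_commutes χ (AlgebraicClosure ℚ) x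

private theorem ey_lift {F : Type} [Field F] [NumberField F] (ψ : F →+* AlgebraicClosure ℚ)
    (σ : F →+* ℂ) : ∃ ι : AlgebraicClosure ℚ →+* ℂ, ι.comp ψ = σ := by
  classical
  obtain ⟨i, -⟩ := ey_i
  have hinj : Function.Injective (fun φ : F →+* AlgebraicClosure ℚ => i.comp φ) := by
    intro φ ψ h
    ext x
    have := RingHom.congr_fun h x
    exact i.injective this
  have hbij : Function.Bijective (fun φ : F →+* AlgebraicClosure ℚ => i.comp φ) := by
    rw [Fintype.bijective_iff_injective_and_card]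
    refine ⟨hinj, ?_⟩
    rw [NumberField.Embeddings.card F (AlgebraicClosure ℚ), NumberField.Embeddings.card F ℂ]
  obtain ⟨φ, hφ⟩ := hbij.2 σ
  obtain ⟨g, hg⟩ := trans_emb F ψ φ
  refine ⟨i.comp (g : AlgebraicClosure ℚ →+* AlgebraicClosure ℚ), ?_⟩
  rw [← hφ]
  change _ = i.comp φ
  rw [← hg]
  ext x
  rfl

/-- totally complex fields and subgroups without complex conjugations -/
theorem tc_iff {F : Type} [Field F] [NumberField F] (ψ : F →+* AlgebraicClosure ℚ) :
    TC (stb ψ) ↔ IsEmpty (F →+* ℝ) := by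
  constructor
  · intro h
    refine ⟨fun φ => ?_⟩
    obtain ⟨ι, hι⟩ := ey_lift ψ (Complex.ofRealHom.comp φ)
    obtain ⟨c, hc⟩ := ey_conj ι
    refine h c ⟨ι, hc⟩ (mem_stabilizer_iff.2 ?_)
    ext x
    change c (ψ x) = ψ x
    apply ι.injective
    have h1 : ι (ψ x) = ((φ x : ℝ) : ℂ) := RingHom.congr_fun hι x
    rw [hc, h1, Complex.conj_ofReal]
  · rintro h c ⟨ι, hι⟩ hc
    have hfix : ∀ x : F, c (ψ x) = ψ x := fun x =>
      RingHom.congr_fun (mem_stabilizer_iff.1 hc) x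
    have hre : ComplexEmbedding.IsReal (ι.comp ψ) := by
      rw [ComplexEmbedding.isReal_iff]
      ext x
      change starRingEnd ℂ (ι (ψ x)) = ι (ψ x)
      rw [← hι, hfix]
    exact h.false hre.embedding

/-- the fields for which the exact functional equation is known -/
def ExaY (i : ℕ) (V T : Finset ℕ) (X : NF) : Prop :=
  ThinD (i + 1) V T X.F ∨ InfinitePlace.nrComplexPlaces X.F = 0 ∨
    ∃ (Y : NF) (_ : Algebra Y.F X.F), Module.finrank Y.F X.F = 2 ∧ DvV i V T Y.F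

theorem exaY_of_ey {V T : Finset ℕ} {i : ℕ} {H : Subgroup GQ} (h : Ey V T i H) (X : NF)
    (ψ : X.F →+* AlgebraicClosure ℚ) (hψ : stb ψ = H) : ExaY i V T X := by
  obtain ⟨-, ⟨h, h'⟩ | h | ⟨H', h1, h2, h3⟩⟩ := h
  · left
    refine ⟨(tc_iff ψ).1 (hψ ▸ h'), ?_⟩
    rw [← ci_iff ψ, hψ]
    exact h
  · right
    left
    exact tr_complex ψ (hψ ▸ h)
  · right
    right
    obtain ⟨Y, ψ', g1, g2, g3⟩ := exists_nf H' h1.1
    obtain ⟨j, hj⟩ := sub_of_stb Y X ψ' ψ (by rw [hψ, g1]; exact h2)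
    let alg : Algebra Y.F X.F := j.toAlgebra
    refine ⟨Y, alg, ?_, ?_⟩
    · have h4 : Module.finrank ℚ Y.F * Module.finrank Y.F X.F = Module.finrank ℚ X.F :=
        Module.finrank_mul_finrank ℚ Y.F X.F
      have h5 := Subgroup.relIndex_mul_index h2
      rw [h3, ← hψ, index_stb ψ, ← g1, index_stb ψ'] at h5
      have h6 : 0 < Module.finrank ℚ Y.F := Module.finrank_pos
      refine Nat.eq_of_mul_eq_mul_left h6 ?_
      rw [h4, ← h5, mul_comm]
    · rw [← ci_iff ψ', g1]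
      exact h1

/-- the algebraic theorem: every totally complex field with local degrees divisible by `2 ^ i` is related to
fields `A`, `B` in `ExaY` and to fields `C`, `E` counted twice -/
def AlgY (i : ℕ) (c : ℕ → ℕ) : Prop :=
  ∀ (T : Finset ℕ) (_ : ∀ p ∈ T, p.Prime) (_ : 2 ∈ T) (V : Finset ℕ) (K : NF), ThinD i V T K.F →
    ∃ A B C E Z Z' : List NF,
      Rel ∅ (K :: (A ++ (C ++ C))) (B ++ (E ++ E)) ∧
      (∀ l ∈ T, ∀ _ : Fact l.Prime, ∀ U : Subgroup GQ, U ≤ decomp ℚ_[l] (emb l) →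
        ((K :: (A ++ (C ++ C)) ++ (Z ++ Z)).map fun F => mark F.F U).sum =
          ((B ++ (E ++ E) ++ (Z' ++ Z')).map fun F => mark F.F U).sum) ∧
      (∀ X ∈ A ++ B, Module.finrank ℚ K.F ∣ Module.finrank ℚ X.F ∧
        Module.finrank ℚ X.F ≤ c (Module.finrank ℚ K.F) ∧ ExaY i V T X) ∧
      ∀ X ∈ C ++ E, Module.finrank ℚ K.F ∣ Module.finrank ℚ X.F ∧
        Module.finrank ℚ X.F ≤ c (Module.finrank ℚ K.F) ∧ DvV i V T X.F

/-- the relative theorem: from the totally complex fields with local degrees divisible by `2 ^ (i + 1)` to all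
fields with local degrees divisible by `2 ^ i` -/
def ClW (i m : ℕ) (b : ℕ → ℕ) : Prop :=
  ∀ (T : Finset ℕ) (_ : ∀ p ∈ T, p.Prime) (_ : ∀ p : ℕ, p.Prime → p < 101 → p ∈ T)
    (D : LocData T) (a : ℕ → ℝ) (_ : ∀ q : ℕ, |a q| ≤ 2 * Real.sqrt q) (_ : FrobRel T a)
    (V : Finset ℕ) (n : ℕ) (_ : D.HW a ℚ)
    (_ : ∀ (R : Type) [Field R] [NumberField R], InfinitePlace.nrComplexPlaces R = 0 →
      Module.finrank ℚ R = 2 ^ m → D.HW a R ∧
      ∀ (F : Type) [Field F] [NumberField F] [Algebra R F], Module.finrank R F = 2 → D.HW a F)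
    (_ : ∀ (F : Type) [Field F] [NumberField F], ThinD (i + 1) V T F →
      2 ^ (m + 1) ∣ Module.finrank ℚ F → Module.finrank ℚ F ≤ b n → D.HW a F)
    (K : Type) [Field K] [NumberField K], DvV i V T K → 2 ^ m ∣ Module.finrank ℚ K →
      Module.finrank ℚ K ≤ n → Pool.Agent.TF2.AllQ D a K

end Pool.Agent.GK
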