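import Pool.Agent.GJ.X.Fin
import Pool.Agent.GK.X.Lst
import Pool.Agent.TF2.F.Tc

/-!
# GK/X-Desc: from the totally complex fields with local degrees divisible by `2 ^ i` to those with even local degrees

`desY` is the step from `i + 1` to `i` (LEMMA X), `desY_all` the downward induction to `i = 1`.
-/

namespace Pool.Agent.GK

open NumberField IsDedekindDomain Pool.Agent.HWR Pool.Agent.QD Pool.Agent.H73.AL Pool.Agent.H73.DU
  Pool.Agent.MD Pool.Agent.LD Pool.Agent.GJ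

theorem desY {T : Finset ℕ} (hTp : ∀ p ∈ T, p.Prime)
    (hT : ∀ p : ℕ, p.Prime → p < 101 → p ∈ T) (D : LocData T) {a : ℕ → ℝ}
    (ha : ∀ q : ℕ, |a q| ≤ 2 * Real.sqrt q) (V : Finset ℕ) {i : ℕ} {c : ℕ → ℕ}
    (hc : AlgY i c) (M N N' : ℕ) (hN : ∀ k : ℕ, k ≤ N → c k ≤ N') (hNN : N ≤ N')
    (HR : ∀ F : NF, InfinitePlace.nrComplexPlaces F.F = 0 →
      Module.finrank ℚ F.F ≤ N' → D.HW a F.F)
    (H : ∀ F : NF, M ∣ Module.finrank ℚ F.F → Module.finrank ℚ F.F ≤ N' →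
      ThinD (i + 1) V T F.F → D.HW a F.F)
    (HC : ∀ Y : NF, M ∣ 2 * Module.finrank ℚ Y.F → Module.finrank ℚ Y.F ≤ N' →
      DvV i V T Y.F → Pool.Agent.TF2.AllQ D a Y.F)
    (K : NF) (hKM : M ∣ Module.finrank ℚ K.F) (hKN : Module.finrank ℚ K.F ≤ N)
    (hK : ThinD i V T K.F) : D.HW a K.F := by
  obtain ⟨A, B, C, E, Z, Z', h0, h1, h2, h3⟩ := hc T hTp (hT 2 Nat.prime_two (by norm_num)) V K hK
  have hcK := hN _ hKN
  refine lemX hTp hT D ha K A B C E Z Z' (HC K (hKM.mul_left 2) (hKN.trans hNN) hK.2).1 ?_ ?_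
    h0 h1
  · intro X hX
    obtain ⟨g1, g2, g3⟩ := h2 X hX
    rcases g3 with g3 | g3 | ⟨Y, inst, g4, g5⟩
    · exact H X (hKM.trans g1) (g2.trans hcK) g3
    · exact HR X g3 (g2.trans hcK)
    · have g6 : Module.finrank ℚ X.F = 2 * Module.finrank ℚ Y.F := by
        rw [← Module.finrank_mul_finrank ℚ Y.F X.F, g4, mul_comm]
      exact (HC Y (by rw [← g6]; exact hKM.trans g1) (by omega) g5).2 X.F g4
  · intro X hX
    obtain ⟨g1, g2, g3⟩ := h3 X hX
    exact (HC X ((hKM.trans g1).mul_left 2) (g2.trans hcK) g3).1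

/-- the bound for the degrees of the fields in the relations -/
def bR (c : ℕ → ℕ) (N : ℕ) : ℕ := (∑ x ∈ Finset.range (N + 1), c x) + N

theorem le_bR {c : ℕ → ℕ} {N k : ℕ} (h : k ≤ N) : c k ≤ bR c N :=
  (Finset.single_le_sum (f := c) (fun _ _ => Nat.zero_le _)
    (Finset.mem_range.2 (Nat.lt_succ_of_le h))).trans (Nat.le_add_right _ _)

/-- the bound for the degrees after `j` steps -/
def bY (c b : ℕ → ℕ → ℕ) : ℕ → ℕ → ℕ
  | 0, N => N
  | k + 1, N => b (k + 1) (bR (c (k + 1)) (bY c b k N)) + bR (c (k + 1)) (bY c b k N)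

theorem bY_le (c b : ℕ → ℕ → ℕ) (N k : ℕ) : bY c b k N ≤ bY c b (k + 1) N := by
  change _ ≤ b (k + 1) (bR (c (k + 1)) (bY c b k N)) + bR (c (k + 1)) (bY c b k N)
  have h : bY c b k N ≤ bR (c (k + 1)) (bY c b k N) := Nat.le_add_left _ _
  omega

theorem bY_mono (c b : ℕ → ℕ → ℕ) (N : ℕ) {i j : ℕ} (h : i ≤ j) : bY c b i N ≤ bY c b j N :=
  monotone_nat_of_le_succ (f := fun i => bY c b i N) (bY_le c b N) h

theorem le_bY (c b : ℕ → ℕ → ℕ) (N j : ℕ) : N ≤ bY c b j N := bY_mono c b N (Nat.zero_le j)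

theorem desY_all {T : Finset ℕ} (hTp : ∀ p ∈ T, p.Prime)
    (hT : ∀ p : ℕ, p.Prime → p < 101 → p ∈ T) (D : LocData T) {a : ℕ → ℝ}
    (ha : ∀ q : ℕ, |a q| ≤ 2 * Real.sqrt q) (hfr : FrobRel T a) (V : Finset ℕ)
    {c b : ℕ → ℕ → ℕ} (hc : ∀ i, AlgY i (c i)) (m : ℕ) (hb : ∀ i, ClW i m (b i))
    (hQ : D.HW a ℚ)
    (hR2 : ∀ (R : Type) [Field R] [NumberField R], InfinitePlace.nrComplexPlaces R = 0 →
      Module.finrank ℚ R = 2 ^ m → D.HW a R ∧
      ∀ (F : Type) [Field F] [NumberField F] [Algebra R F], Module.finrank R F = 2 → D.HW a F)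
    (N j : ℕ)
    (HR : ∀ F : NF, InfinitePlace.nrComplexPlaces F.F = 0 →
      Module.finrank ℚ F.F ≤ bY c b j N → D.HW a F.F)
    (H : ∀ F : NF, 2 ^ (m + 1) ∣ Module.finrank ℚ F.F → Module.finrank ℚ F.F ≤ bY c b j N →
      ThinD (j + 1) V T F.F → D.HW a F.F)
    (K : NF) (hKM : 2 ^ (m + 1) ∣ Module.finrank ℚ K.F) (hKN : Module.finrank ℚ K.F ≤ N)
    (hK : ThinD 1 V T K.F) : D.HW a K.F := by
  have key : ∀ k : ℕ, k ≤ j → ∀ F : NF, 2 ^ (m + 1) ∣ Module.finrank ℚ F.F →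
      Module.finrank ℚ F.F ≤ bY c b (j - k) N → ThinD (j - k + 1) V T F.F → D.HW a F.F := by
    intro k
    induction k with
    | zero => exact fun _ => H
    | succ k ih =>
      intro hk F hF1 hF2 hF3
      have e : j - k = j - (k + 1) + 1 := by omega
      have ih' := ih (by omega)
      rw [e] at ih'
      have hb1 : bR (c (j - (k + 1) + 1)) (bY c b (j - (k + 1)) N) ≤
          bY c b (j - (k + 1) + 1) N := Nat.le_add_left _ _
      have hb2 : b (j - (k + 1) + 1) (bR (c (j - (k + 1) + 1)) (bY c b (j - (k + 1)) N)) ≤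
          bY c b (j - (k + 1) + 1) N := Nat.le_add_right _ _
      refine desY hTp hT D ha V (hc (j - (k + 1) + 1)) (2 ^ (m + 1)) (bY c b (j - (k + 1)) N)
        (bR (c (j - (k + 1) + 1)) (bY c b (j - (k + 1)) N)) (fun x hx => le_bR hx)
        (Nat.le_add_left _ _) ?_ ?_ ?_ F hF1 hF2 hF3
      · intro X hX1 hX2
        exact HR X hX1 (hX2.trans (hb1.trans (bY_mono c b N (by omega))))
      · intro X hX1 hX2 hX3
        exact ih' X hX1 (hX2.trans hb1) hX3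
      · intro Y hY1 hY2 hY3
        refine hb (j - (k + 1) + 1) T hTp hT D a ha hfr V _ hQ hR2 (fun X _ _ hX1 hX2 hX3 => ?_)
          Y.F hY3 ?_ hY2
        · exact ih' ⟨X⟩ hX2 (hX3.trans hb2) hX1
        · rw [pow_succ, mul_comm] at hY1
          exact Nat.dvd_of_mul_dvd_mul_left two_pos hY1
  have h1 := key j le_rfl K hKM
  rw [Nat.sub_self] at h1
  exact h1 hKN hK

end Pool.Agent.GK
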