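import Pool.Agent.GK.X.Desc
import Pool.Agent.TF2.F.Pol

/-!
# GK/X-Fin: the theorem for thin fields with local degrees divisible by `2 ^ i`

`v_thin`: the descent to the totally complex fields with even local degrees (`desY_all`), then the theorem of TF2
(`core_exc`, `core_tc`); poles and finitely many exceptions in the hypothesis as in TF2/F/Pol and GJ/X/Fin.
-/

namespace Pool.Agent.GK

open NumberField IsDedekindDomain Pool.Agent.HWR Pool.Agent.QD Pool.Agent.H73.AL Pool.Agent.LD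
  Pool.Agent.TS Pool.Agent.GJ

theorem ThinD.mono {i j : ℕ} (hij : i ≤ j) {V T : Finset ℕ} {F : Type} [Field F] [NumberField F]
    (h : ThinD j V T F) : ThinD i V T F := ⟨h.1, h.2.mono hij⟩

/-- towers of quadratic extensions of thin fields -/
theorem towv_thD {T : Finset ℕ} (D : LocData T) {a : ℕ → ℝ} {V : Finset ℕ} {d j M N : ℕ}
    (H : ∀ F : NF, M ∣ Module.finrank ℚ F.F → Module.finrank ℚ F.F ≤ N → ThinD d V T F.F →
      HypQ D a j N [] F) (i : ℕ) :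
    ∀ (F : Type) [Field F] [NumberField F], ThinD d V T F → M ∣ Module.finrank ℚ F →
      2 ^ i * Module.finrank ℚ F ≤ N → Pool.Agent.UPQ.TowV D a (2 ^ j - 1) i F := by
  induction i with
  | zero =>
    intro F _ _ h1 h2 h3
    obtain ⟨Q, g1, g2, g3, -⟩ := H ⟨F⟩ h2 (by simpa using h3) h1
    exact ⟨Q, g1, g2, g3⟩
  | succ i ih =>
    intro F _ _ h1 h2 h3
    have h4 : Module.finrank ℚ F ≤ N := by
      refine le_trans ?_ h3
      exact Nat.le_mul_of_pos_left _ (by positivity)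
    obtain ⟨Q, g1, g2, -, g3⟩ := H ⟨F⟩ h2 h4 h1
    have h5 : ∀ (L : Type) [Field L] [NumberField L] [Algebra F L], Module.finrank F L = 2 →
        2 ^ i * Module.finrank ℚ L ≤ N := by
      intro L _ _ _ hL
      rw [← Module.finrank_mul_finrank ℚ F L, hL]
      rw [pow_succ] at h3
      linarith
    refine ⟨⟨Q, g1, g2, fun L _ _ _ hL => g3 L hL ?_ fun X hX => absurd hX List.not_mem_nil⟩,
      fun L _ _ _ hL => ih L (ThinD.ext (K := F) h1) ?_ (h5 L hL)⟩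
    · refine le_trans ?_ (h5 L hL)
      exact Nat.le_mul_of_pos_left _ (by positivity)
    · rw [← Module.finrank_mul_finrank ℚ F L]
      exact h2.mul_right _

/-- from the version with poles to the Hasse-Weil conjecture, with exceptions -/
theorem hwv_thD {T : Finset ℕ} (hTp : ∀ p ∈ T, p.Prime)
    (hT : ∀ p : ℕ, p.Prime → p < 101 → p ∈ T) (D : LocData T) {a : ℕ → ℝ}
    (ha : ∀ q : ℕ, |a q| ≤ 2 * Real.sqrt q) (hfr : FrobRel T a)
    (haz : ∀ q : ℕ, ∃ n : ℤ, a q = n) (V : Finset ℕ) (M N : ℕ) (L : List NF) {d j : ℕ}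
    (hd : 1 ≤ d)
    (H : ∀ F : NF, M ∣ Module.finrank ℚ F.F → Module.finrank ℚ F.F ≤ 2 ^ j * N →
      ThinD d V T F.F → (∀ X ∈ L, ¬ Nonempty (X.F ≃+* F.F)) → HypQ D a j (2 ^ j * N) L F) :
    ∃ V' : Finset ℕ, ∀ F : NF, M ∣ Module.finrank ℚ F.F → Module.finrank ℚ F.F ≤ N →
      ThinD d V' T F.F → D.HW a F.F := by
  obtain ⟨V', hV, hX⟩ := exists_V V T L
  refine ⟨V', fun F h1 h2 h3 => ?_⟩
  have hr : 2 ^ j - 1 < 2 ^ j := by
    have h4 : 0 < 2 ^ j := by positivity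
    omega
  refine Pool.Agent.UPQ.towv_hw hTp hT D ha hfr haz hr F.F ?_
  refine towv_thD D (V := V') (d := d) (M := M) (N := 2 ^ j * N) (fun E h4 h5 hE => ?_) j F.F
    h3 h1 ?_
  · obtain ⟨Q, g1, g2, g3, g4⟩ := H E h4 h5 ⟨hE.1, fun p hp => hE.2 p (hV hp)⟩
      (hX E (hE.2.ev hd))
    refine ⟨Q, g1, g2, g3, fun Y _ _ _ hY h6 _ => g4 Y hY h6 ?_⟩
    exact hX ⟨Y⟩ (evV_ext (K := E.F) (hE.2.ev hd))
  · exact Nat.mul_le_mul_left _ h2

/-- the bound for the degrees -/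
def bTh (c : ℕ → ℕ → ℕ) (b : ℕ → ℕ → ℕ → ℕ) (i n m : ℕ) : ℕ :=
  bY c (fun i => b i m) (i - 1) (Pool.Agent.TF2.bdC (bR (bP (m + 1)) n) m)

theorem v_thin {c : ℕ → ℕ → ℕ} {b : ℕ → ℕ → ℕ → ℕ} (hc : ∀ i, AlgY i (c i))
    (hb : ∀ i m, ClW i m (b i m)) {T : Finset ℕ} (hTp : ∀ p ∈ T, p.Prime)
    (hT : ∀ p : ℕ, p.Prime → p < 101 → p ∈ T) (D : LocData T) {a : ℕ → ℝ}
    (ha : ∀ q : ℕ, |a q| ≤ 2 * Real.sqrt q) (hfr : FrobRel T a)
    (haz : ∀ q : ℕ, ∃ n : ℤ, a q = n) (V : Finset ℕ) (L : List NF) (i n m j : ℕ)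
    (hQ : D.HW a ℚ)
    (hR2 : ∀ (R : Type) [Field R] [NumberField R], InfinitePlace.nrComplexPlaces R = 0 →
      Module.finrank ℚ R = 2 ^ m → D.HW a R ∧
      ∀ (F : Type) [Field F] [NumberField F] [Algebra R F], Module.finrank R F = 2 → D.HW a F)
    (HR : ∀ F : NF, InfinitePlace.nrComplexPlaces F.F = 0 →
      Module.finrank ℚ F.F ≤ bTh c b i n m → D.HW a F.F)
    (H : ∀ F : NF, 2 ^ (m + 1) ∣ Module.finrank ℚ F.F →
      Module.finrank ℚ F.F ≤ 2 ^ j * bTh c b i n m → ThinD i V T F.F →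
      (∀ X ∈ L, ¬ Nonempty (X.F ≃+* F.F)) → HypQ D a j (2 ^ j * bTh c b i n m) L F)
    (K : Type) [Field K] [NumberField K] (hK : Module.finrank ℚ K ≤ n) :
    Pool.Agent.TF2.AllQ D a K ∧ (InfinitePlace.nrRealPlaces K = 0 → D.HW a K) := by
  have hi : i ≤ i - 1 + 1 := by omega
  obtain ⟨V', hV'⟩ := hwv_thD hTp hT D ha hfr haz V (2 ^ (m + 1)) (bTh c b i n m) L
    (Nat.le_add_left 1 (i - 1)) (fun F h1 h2 h3 h4 => H F h1 h2 (h3.mono hi) h4)
  let X0 : Fin 0 → NF := fun i => i.elim0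
  have H0 : ∀ (F : Type) [Field F] [NumberField F], Pool.Agent.TF2.ThinV V' T F →
      2 ^ (m + 1) ∣ Module.finrank ℚ F →
      Module.finrank ℚ F ≤ Pool.Agent.TF2.bdC (bR (bP (m + 1)) n) m →
      (∀ i, IsEmpty (F ≃+* (X0 i).F)) → D.HW a F := by
    intro F _ _ h1 h2 h3 _
    refine desY_all hTp hT D ha hfr V' (b := fun i => b i m) hc m (fun i => hb i m) hQ hR2 _
      (i - 1) HR (fun E h4 h5 h6 => hV' E h4 h5 h6) ⟨F⟩ h2 h3 ⟨h1.1, ?_⟩
    intro p hp hpp hpT w hw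
    rw [pow_one]
    exact h1.2 p hp hpp hpT w hw
  have hR' : 0 < m → ∀ (R : Type) [Field R] [NumberField R],
      InfinitePlace.nrComplexPlaces R = 0 → Module.finrank ℚ R = 2 ^ m → D.HW a R ∧
      ∀ (F : Type) [Field F] [NumberField F] [Algebra R F], Module.finrank R F = 2 → D.HW a F :=
    fun _ => hR2
  have hn : n ≤ bR (bP (m + 1)) n := Nat.le_add_left _ _
  refine ⟨Pool.Agent.TF2.core_exc hTp hT D ha hfr V' _ m hQ hR' X0 H0 K (hK.trans hn),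
    fun hK0 => ?_⟩
  refine Pool.Agent.TF2.core_tc hTp hT D ha hfr V' _ m hQ hR' X0 H0 K hK0 (le_bR hK) ?_
  intro F _ _ h1 h2
  refine HR ⟨F⟩ h1 ?_
  change Module.finrank ℚ F ≤ _
  rw [h2]
  refine (hK.trans hn).trans ((Pool.Agent.TF2.le_bdC _ m).trans ?_)
  exact le_bY _ _ _ _

end Pool.Agent.GK
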