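import Pool.Agent.GK.H.Cc
import Pool.Agent.GK.C.Defs
import Pool.Agent.GJ.X.Brg
import Pool.Agent.GJ.X.Exx

/-!
# GK/X-Tc: totally complex subgroups and fields
-/

namespace Pool.Agent.GK

open Pool.Agent.GJ MulAction Pool.Agent.H73.DU Pool.Agent.H73.AL Pool.Agent.LD Pool.Agent.TS

open NumberField

/-- the stabilizer of an embedding of a totally complex field contains no complex conjugation -/
theorem tc_of_empty {F : Type} [Field F] [NumberField F] (ψ : F →+* AlgebraicClosure ℚ)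
    (h : IsEmpty (F →+* ℝ)) : TC (stb ψ) := by
  rintro c ⟨ι, hι⟩ hc
  have h1 : ComplexEmbedding.IsReal (ι.comp ψ) := by
    rw [ComplexEmbedding.isReal_iff]
    ext x
    change starRingEnd ℂ (ι (ψ x)) = ι (ψ x)
    rw [← hι]
    have h2 : c (ψ x) = ψ x := RingHom.congr_fun (mem_stabilizer_iff.1 hc) x
    rw [h2]
  exact h.false h1.embedding

theorem empty_of_tc {F : Type} [Field F] [NumberField F] (ψ : F →+* AlgebraicClosure ℚ)
    (h : TC (stb ψ)) : IsEmpty (F →+* ℝ) := by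
  obtain ⟨i, c, hc⟩ := Pool.Agent.THF.exists_cx
  refine Pool.Agent.THF.tc_of hc F ψ fun g hg => ?_
  have h2 := isCc_conj (isCc_of hc) g⁻¹
  rw [inv_inv] at h2
  exact h _ h2 hg

/-- the field of a totally complex subgroup of level `i` -/
theorem thinD_iff {i : ℕ} {V T : Finset ℕ} {F : Type} [Field F] [NumberField F]
    (ψ : F →+* AlgebraicClosure ℚ) : (Ci V T i (stb ψ) ∧ TC (stb ψ)) ↔ ThinD i V T F := by
  constructor
  · rintro ⟨h1, h2⟩
    exact ⟨empty_of_tc ψ h2, (ci_iff ψ).1 h1⟩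
  · rintro ⟨h1, h2⟩
    exact ⟨(ci_iff ψ).2 h2, tc_of_empty ψ h1⟩

end Pool.Agent.GK
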